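import Mathlib

namespace Pool.Agent.Results.MP_975ca8_an.Dich

/-- `x` is a positive solution; `x (n + l)` is the term with index `n`. -/
def Sol (l : ℕ) (B : ℕ → ℝ) (x : ℕ → ℝ) : Prop :=
  (∀ i, i ≤ l → 0 < x i) ∧ ∀ n, x (n + l + 1) = 1 / (B n * x (n + l) + x n)

theorem pos {l : ℕ} {B x : ℕ → ℝ} (hB : ∀ n, 0 ≤ B n) (h : Sol l B x) : ∀ i, 0 < x i := by
  intro i
  induction i using Nat.strong_induction_on with
  | _ i ih =>
    by_cases hi : i ≤ l
    · exact h.1 i hi
    · obtain ⟨n, rfl⟩ : ∃ n, i = n + l + 1 := ⟨i - l - 1, by omega⟩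
      rw [h.2 n]
      have h1 := ih (n + l) (by omega)
      have h2 := ih n (by omega)
      have h3 := hB n
      positivity

theorem comp {l : ℕ} {B x y : ℕ → ℝ} (hB : ∀ n, 0 ≤ B n) (hx : Sol l B x) (hy : Sol l B y) :
    ∃ K : ℝ, 0 < K ∧ ∀ i, y i ≤ K * x i ∧ x i ≤ K * y i := by
  have px := pos hB hx
  have py := pos hB hy
  set K : ℝ := ∑ i ∈ Finset.range (l + 1), (y i / x i + x i / y i) with hK
  have hKi : ∀ i, i ≤ l → y i / x i + x i / y i ≤ K := fun i hi =>
    Finset.single_le_sum (f := fun i => y i / x i + x i / y i)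
      (fun j _ => by have := px j; have := py j; positivity) (Finset.mem_range.2 (by omega))
  have hK0 : 0 < K := lt_of_lt_of_le (by have := px 0; have := py 0; positivity) (hKi 0 (by omega))
  refine ⟨K, hK0, fun i => ?_⟩
  induction i using Nat.strong_induction_on with
  | _ i ih =>
    by_cases hi : i ≤ l
    · have h := hKi i hi
      have a := px i
      have b := py i
      have c1 : 0 < y i / x i := by positivity
      have c2 : 0 < x i / y i := by positivity
      constructor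
      · exact (div_le_iff₀ a).1 (by linarith)
      · exact (div_le_iff₀ b).1 (by linarith)
    · obtain ⟨n, rfl⟩ : ∃ n, i = n + l + 1 := ⟨i - l - 1, by omega⟩
      rw [hx.2 n, hy.2 n]
      have h1 := ih (n + l) (by omega)
      have h2 := ih n (by omega)
      have h3 := hB n
      have a : 0 < B n * x (n + l) + x n := by have := px (n + l); have := px n; positivity
      have b : 0 < B n * y (n + l) + y n := by have := py (n + l); have := py n; positivity
      have e1 := mul_le_mul_of_nonneg_left h1.1 h3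
      have e2 := mul_le_mul_of_nonneg_left h1.2 h3
      constructor
      · rw [mul_one_div, div_le_div_iff₀ b a]; nlinarith [h2.2]
      · rw [mul_one_div, div_le_div_iff₀ a b]; nlinarith [h2.1]

theorem unb {l : ℕ} (hl : 1 ≤ l) {B x : ℕ → ℝ} (hB : ∀ n, 0 ≤ B n) (b : ℝ) (hb : 0 < b)
    (h0 : ∀ m, b ≤ B (2 * (l + 1) * m)) (h1 : ∀ m, B (2 * (l + 1) * m + l) = 0)
    (h2 : ∀ m, B (2 * (l + 1) * m + (l + 1)) = 0) (h3 : ∀ m, B (2 * (l + 1) * m + (2 * l + 1)) = 0)
    (hx : Sol l B x) : ¬ BddAbove (Set.range x) := by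
  have px := pos hB hx
  have e1 : ∀ m, x (2 * (l + 1) * m + l) = x l := by
    intro m
    induction m with
    | zero => simp
    | succ m ih =>
      have a := hx.2 (2 * (l + 1) * m + l)
      have c := hx.2 (2 * (l + 1) * m + (2 * l + 1))
      rw [h1 m] at a
      rw [h3 m] at c
      rw [show 2 * (l + 1) * (m + 1) + l = 2 * (l + 1) * m + (2 * l + 1) + l + 1 by ring, c,
        show 2 * (l + 1) * m + (2 * l + 1) = 2 * (l + 1) * m + l + l + 1 by ring, a, ih]
      simp
  have e2 : ∀ m : ℕ, m * (b * x l) ≤ x (2 * (l + 1) * m) := by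
    intro m
    induction m with
    | zero => simpa using (px 0).le
    | succ m ih =>
      have a := hx.2 (2 * (l + 1) * m)
      have c := hx.2 (2 * (l + 1) * m + (l + 1))
      rw [h2 m] at c
      rw [show 2 * (l + 1) * (m + 1) = 2 * (l + 1) * m + (l + 1) + l + 1 by ring, c,
        show 2 * (l + 1) * m + (l + 1) = 2 * (l + 1) * m + l + 1 by ring, a, e1 m]
      have := mul_le_mul_of_nonneg_right (h0 m) (px l).le
      simp only [zero_mul, zero_add, one_div, inv_inv]
      push_cast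
      linarith
  rintro ⟨M, hM⟩
  have hp : 0 < b * x l := mul_pos hb (px l)
  obtain ⟨m, hm⟩ := exists_nat_gt (M / (b * x l))
  have := hM ⟨2 * (l + 1) * m, rfl⟩
  have := e2 m
  rw [div_lt_iff₀ hp] at hm
  linarith

theorem part1 (l : ℕ) (hl : 1 ≤ l) (B : ℕ → ℝ) (hB : ∀ n, 0 ≤ B n) :
    ((∀ x, Sol l B x → BddAbove (Set.range x)) ∨ (∀ x, Sol l B x → ¬ BddAbove (Set.range x))) ∧
    ((∀ n, B (n + 2 * (l + 1)) = B n) → 0 < B 0 → B l = 0 → B (l + 1) = 0 → B (2 * l + 1) = 0 →
      ∀ x, Sol l B x → ¬ BddAbove (Set.range x)) := by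
  constructor
  · by_cases h : ∃ x, Sol l B x ∧ BddAbove (Set.range x)
    · left
      obtain ⟨x, hx, M, hM⟩ := h
      intro y hy
      obtain ⟨K, hK, hc⟩ := comp hB hx hy
      refine ⟨K * M, ?_⟩
      rintro _ ⟨i, rfl⟩
      exact (hc i).1.trans (mul_le_mul_of_nonneg_left (hM ⟨i, rfl⟩) hK.le)
    · right
      exact fun x hx hb => h ⟨x, hx, hb⟩
  · intro hp h0 h1 h2 h3 x hx
    have per : ∀ m r, B (2 * (l + 1) * m + r) = B r := by
      intro m r
      induction m with
      | zero => simp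
      | succ m ih =>
        rw [show 2 * (l + 1) * (m + 1) + r = 2 * (l + 1) * m + r + 2 * (l + 1) by ring, hp, ih]
    exact unb hl hB (B 0) h0 (fun m => by have := per m 0; simp at this; simp [this])
      (fun m => by rw [per, h1]) (fun m => by rw [per, h2]) (fun m => by rw [per, h3]) hx

theorem per2 {B : ℕ → ℝ} (hp : ∀ n, B (n + 2) = B n) (m : ℕ) :
    B (2 * m) = B 0 ∧ B (2 * m + 1) = B 1 := by
  induction m with
  | zero => simp
  | succ m ih =>
    constructor
    · rw [show 2 * (m + 1) = 2 * m + 2 by ring, hp, ih.1]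
    · rw [show 2 * (m + 1) + 1 = 2 * m + 1 + 2 by ring, hp, ih.2]

theorem oddc (p : ℕ) {B : ℕ → ℝ} (hB : ∀ n, 0 ≤ B n) (hp : ∀ n, B (n + 2) = B n) :
    ∃ x, Sol (2 * p + 1) B x ∧ BddAbove (Set.range x) := by
  have h0 := hB 0
  have h1 := hB 1
  obtain ⟨t, ht, hq⟩ : ∃ t : ℝ, 0 < t ∧ t ^ 2 + (B 1 - B 0) * t - 1 = 0 := by
    have hc : ContinuousOn (fun t : ℝ => t ^ 2 + (B 1 - B 0) * t - 1) (Set.Icc 0 (B 0 + 1)) := by
      fun_prop
    obtain ⟨t, ht, hq⟩ := intermediate_value_Icc (by linarith) hc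
      (show (0 : ℝ) ∈ Set.Icc _ _ from ⟨by simp, by nlinarith [mul_nonneg h0 h1]⟩)
    refine ⟨t, lt_of_le_of_ne ht.1 ?_, hq⟩
    rintro rfl
    simp at hq
  have hs : 0 < 1 + B 0 * t := by positivity
  obtain ⟨v, hv, hv2⟩ : ∃ v : ℝ, 0 < v ∧ v ^ 2 * (1 + B 0 * t) = 1 := by
    refine ⟨Real.sqrt (1 / (1 + B 0 * t)), Real.sqrt_pos.2 (by positivity), ?_⟩
    rw [Real.sq_sqrt (by positivity)]
    field_simp
  refine ⟨fun i => if i % 2 = 0 then v else t * v, ⟨fun i _ => ?_, fun n => ?_⟩, max v (t * v), ?_⟩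
  · dsimp only
    split_ifs <;> positivity
  · obtain ⟨m, rfl | rfl⟩ := Nat.even_or_odd' n
    · simp only [(per2 hp m).1]
      rw [if_pos (by omega), if_neg (by omega), if_pos (by omega), eq_div_iff (by positivity)]
      linear_combination hv2
    · simp only [(per2 hp m).2]
      rw [if_neg (by omega), if_pos (by omega), if_neg (by omega), eq_div_iff (by positivity)]
      linear_combination hv2 + v ^ 2 * hq
  · rintro _ ⟨i, rfl⟩
    dsimp only
    split_ifs
    · exact le_max_left _ _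
    · exact le_max_right _ _

theorem evenc (p : ℕ) {B : ℕ → ℝ} (hB : ∀ n, 0 ≤ B n) (hp : ∀ n, B (n + 2) = B n)
    (hne : B 0 ≠ B 1) : ∃ x, Sol (2 * (p + 1)) B x ∧ ¬ BddAbove (Set.range x) := by
  have h0 := hB 0
  have h1 := hB 1
  obtain ⟨c, hc0, hc1, hq⟩ : ∃ c : ℝ, 0 < c ∧ c ≠ 1 ∧
      c ^ (p + 1) * c * (B 1 + c ^ (p + 1)) - B 0 * c ^ (p + 1) - 1 = 0 := by
    have hc : ContinuousOn
        (fun c : ℝ => c ^ (p + 1) * c * (B 1 + c ^ (p + 1)) - B 0 * c ^ (p + 1) - 1)
        (Set.Icc 0 (B 0 + 1)) := by fun_prop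
    have hw : (1 : ℝ) ≤ (B 0 + 1) ^ (p + 1) := one_le_pow₀ (by linarith)
    obtain ⟨t, ht, hq⟩ := intermediate_value_Icc (by linarith) hc
      (show (0 : ℝ) ∈ Set.Icc _ _ from ⟨by simp, by
        generalize (B 0 + 1) ^ (p + 1) = w at hw
        have a1 : 0 ≤ w * (B 0 + 1) * B 1 := by positivity
        have a2 : 0 ≤ w * (B 0 + 1) * (w - 1) := by
          have : 0 ≤ w - 1 := by linarith
          positivity
        nlinarith⟩)
    refine ⟨t, lt_of_le_of_ne ht.1 ?_, ?_, hq⟩
    · rintro rfl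
      simp at hq
    · rintro rfl
      simp at hq
      apply hne
      linarith
  set u : ℝ := 1 / (c * (B 1 + c ^ (p + 1))) with hu
  have hu0 : 0 < u := by positivity
  have hu1 : u * (c * (B 1 + c ^ (p + 1))) = 1 := by rw [hu]; field_simp
  have hu2 : u * (B 0 * c ^ (p + 1) + 1) = c ^ (p + 1) := by
    linear_combination c ^ (p + 1) * hu1 - u * hq
  refine ⟨fun i => if i % 2 = 0 then u * c ^ (i / 2) else (c ^ (i / 2))⁻¹,
    ⟨fun i _ => ?_, fun n => ?_⟩, ?_⟩
  · dsimp only
    split_ifs <;> positivity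
  · obtain ⟨m, rfl | rfl⟩ := Nat.even_or_odd' n
    · simp only [(per2 hp m).1]
      rw [if_neg (by omega), if_pos (by omega), if_pos (by omega),
        show (2 * m + 2 * (p + 1) + 1) / 2 = m + (p + 1) by omega,
        show (2 * m + 2 * (p + 1)) / 2 = m + (p + 1) by omega, show 2 * m / 2 = m by omega,
        one_div, inv_inj, pow_add]
      linear_combination (-c ^ m) * hu2
    · simp only [(per2 hp m).2]
      rw [if_pos (by omega), if_neg (by omega), if_neg (by omega),
        show (2 * m + 1 + 2 * (p + 1) + 1) / 2 = m + (p + 1) + 1 by omega,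
        show (2 * m + 1 + 2 * (p + 1)) / 2 = m + (p + 1) by omega,
        show (2 * m + 1) / 2 = m by omega, eq_div_iff (by positivity), pow_succ, pow_add]
      have a : c ^ m ≠ 0 := by positivity
      have b : c ^ (p + 1) ≠ 0 := by positivity
      generalize c ^ m = A at a
      generalize c ^ (p + 1) = D at b hu1
      field_simp
      linear_combination hu1
  · rintro ⟨M, hM⟩
    rcases lt_or_gt_of_ne hc1 with h | h
    · obtain ⟨j, hj⟩ := pow_unbounded_of_one_lt M ((one_lt_inv₀ hc0).2 h)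
      have := hM ⟨2 * j + 1, rfl⟩
      dsimp only at this
      rw [if_neg (by omega), show (2 * j + 1) / 2 = j by omega, ← inv_pow] at this
      linarith
    · obtain ⟨j, hj⟩ := pow_unbounded_of_one_lt (M / u) h
      have := hM ⟨2 * j, rfl⟩
      dsimp only at this
      rw [if_pos (by omega), show 2 * j / 2 = j by omega] at this
      rw [div_lt_iff₀ hu0] at hj
      linarith

noncomputable def ph (s : ℝ) : ℝ := (-s + Real.sqrt (s ^ 2 + 4)) / 2

theorem ph_spec {s : ℝ} (hs : 0 ≤ s) : 0 < ph s ∧ ph s ≤ 1 ∧ ph s * (s + ph s) = 1 := by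
  have h1 : Real.sqrt (s ^ 2 + 4) ^ 2 = s ^ 2 + 4 := Real.sq_sqrt (by positivity)
  have h2 : s < Real.sqrt (s ^ 2 + 4) := Real.lt_sqrt_of_sq_lt (by linarith)
  have h3 : Real.sqrt (s ^ 2 + 4) ≤ s + 2 := Real.sqrt_le_iff.2 ⟨by linarith, by nlinarith⟩
  unfold ph
  refine ⟨by linarith, by linarith, by nlinarith⟩

noncomputable def zz (B : ℕ → ℝ) (a : ℝ) : ℕ → ℝ
  | 0 => a
  | n + 1 => ph (B n * zz B a n)

theorem zz_cont (B : ℕ → ℝ) (n : ℕ) : Continuous fun a => zz B a n := by
  induction n with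
  | zero => exact continuous_id
  | succ n ih =>
    have : Continuous ph := by unfold ph; fun_prop
    exact this.comp (continuous_const.mul ih)

theorem zz_nn {B : ℕ → ℝ} (hB : ∀ n, 0 ≤ B n) {a : ℝ} (ha : 0 ≤ a) (n : ℕ) : 0 ≤ zz B a n := by
  induction n with
  | zero => exact ha
  | succ n ih => exact (ph_spec (mul_nonneg (hB n) ih)).1.le

theorem divc (l : ℕ) {B : ℕ → ℝ} (hB : ∀ n, 0 ≤ B n) (hp : ∀ n, B (n + (l + 1)) = B n) :
    ∃ x, Sol l B x ∧ BddAbove (Set.range x) := by
  have sp : ∀ a, 0 ≤ a → ∀ n, 0 < zz B a (n + 1) ∧ zz B a (n + 1) ≤ 1 ∧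
      zz B a (n + 1) * (B n * zz B a n + zz B a (n + 1)) = 1 := fun a ha n =>
    ph_spec (mul_nonneg (hB n) (zz_nn hB ha n))
  have hc : ContinuousOn (fun a : ℝ => a - zz B a (l + 1)) (Set.Icc 0 1) :=
    (continuous_id.sub (zz_cont B (l + 1))).continuousOn
  obtain ⟨a, ha, hq⟩ := intermediate_value_Icc (by norm_num) hc
    (show (0 : ℝ) ∈ Set.Icc _ _ from ⟨by have := (sp 0 le_rfl l).1; linarith,
      by have := (sp 1 zero_le_one l).2.1; linarith⟩)
  have hq' : zz B a (l + 1) = a := by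
    have : a - zz B a (l + 1) = 0 := hq
    linarith
  have per : ∀ n, zz B a (n + (l + 1)) = zz B a n := by
    intro n
    induction n with
    | zero => simpa [zz] using hq'
    | succ n ih =>
      rw [show n + 1 + (l + 1) = n + (l + 1) + 1 by ring]
      show ph (B (n + (l + 1)) * zz B a (n + (l + 1))) = ph (B n * zz B a n)
      rw [hp, ih]
  refine ⟨fun i => zz B a (i + 1), ⟨fun i _ => (sp a ha.1 i).1, fun n => ?_⟩, 1, ?_⟩
  · have h := sp a ha.1 n
    have e1 : zz B a (n + l + 1 + 1) = zz B a (n + 1) := by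
      rw [← per (n + 1)]; congr 1; ring
    have e2 : zz B a (n + l + 1) = zz B a n := per n
    have h0 := mul_nonneg (hB n) (zz_nn hB ha.1 n)
    show zz B a (n + l + 1 + 1) = 1 / (B n * zz B a (n + l + 1) + zz B a (n + 1))
    rw [e1, e2, eq_div_iff (by have := h.1; positivity)]
    exact h.2.2
  · rintro _ ⟨i, rfl⟩
    exact (sp a ha.1 i).2.1

theorem perk {C : ℕ → ℝ} {k : ℕ} (hp : ∀ n, C (n + k) = C n) (m r : ℕ) : C (k * m + r) = C r := by
  induction m with
  | zero => simp
  | succ m ih => rw [show k * (m + 1) + r = k * m + r + k by ring, hp, ih]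

theorem t3b {B : ℕ → ℝ} (hB : ∀ n, 0 ≤ B n) (hp : ∀ n, B (n + 3) = B n)
    (h : ∀ i, 0 < 1 - B i + B i * B (i + 2)) : ∃ x, Sol 1 B x ∧ BddAbove (Set.range x) := by
  have h0 := hB 0
  have h1 := hB 1
  have h2 := hB 2
  have hQ : 0 < 1 - B 0 + B 0 * B 2 := h 0
  have hR : 0 < 1 - B 1 + B 1 * B 0 := by have := h 1; rwa [show 1 + 2 = 0 + 3 by rfl, hp] at this
  have hP : 0 < 1 - B 2 + B 2 * B 1 := by have := h 2; rwa [show 2 + 2 = 1 + 3 by rfl, hp] at this
  have hD : 0 < 1 + B 0 * B 1 * B 2 := by positivity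
  obtain ⟨P, Q, R, p0, q0, r0, e0, e1, e2⟩ : ∃ P Q R : ℝ, 0 < P ∧ 0 < Q ∧ 0 < R ∧
      B 0 * P + Q = 1 ∧ B 1 * Q + R = 1 ∧ B 2 * R + P = 1 := by
    refine ⟨_, _, _, div_pos hP hD, div_pos hQ hD, div_pos hR hD, ?_, ?_, ?_⟩ <;>
      field_simp <;> ring
  obtain ⟨a, a0, ha⟩ : ∃ a : ℝ, 0 < a ∧ a ^ 2 * Q = P * R := by
    refine ⟨Real.sqrt (P * R / Q), Real.sqrt_pos.2 (by positivity), ?_⟩
    rw [Real.sq_sqrt (by positivity)]
    field_simp
  obtain ⟨b, b0, hb⟩ : ∃ b : ℝ, 0 < b ∧ a * b = P := ⟨P / a, by positivity, by field_simp⟩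
  obtain ⟨c, c0, hc⟩ : ∃ c : ℝ, 0 < c ∧ a * c = R := ⟨R / a, by positivity, by field_simp⟩
  have hq : b * c = Q := by
    have : a ^ 2 * (b * c) = a ^ 2 * Q := by rw [ha, ← hb, ← hc]; ring
    exact mul_left_cancel₀ (by positivity) this
  refine ⟨fun i => if i % 3 = 0 then c else if i % 3 = 1 then a else b,
    ⟨fun i _ => ?_, fun n => ?_⟩, a + b + c, ?_⟩
  · dsimp only
    split_ifs <;> assumption
  · obtain ⟨m, rfl | rfl | rfl⟩ : ∃ m, n = 3 * m + 0 ∨ n = 3 * m + 1 ∨ n = 3 * m + 2 :=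
      ⟨n / 3, by omega⟩
    · simp only [perk hp m 0]
      rw [if_neg (by omega), if_neg (by omega), if_neg (by omega), if_pos (by omega),
        if_pos (by omega), eq_div_iff (by positivity)]
      linear_combination e0 + B 0 * hb + hq
    · simp only [perk hp m 1]
      rw [if_pos (by omega), if_neg (by omega), if_neg (by omega), if_neg (by omega),
        if_pos (by omega), eq_div_iff (by positivity)]
      linear_combination e1 + B 1 * hq + hc
    · simp only [perk hp m 2]
      rw [if_neg (by omega), if_pos (by omega), if_pos (by omega), if_neg (by omega),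
        if_neg (by omega), eq_div_iff (by positivity)]
      linear_combination e2 + B 2 * hc + hb
  · rintro _ ⟨i, rfl⟩
    dsimp only
    split_ifs <;> linarith

theorem t3u {B x : ℕ → ℝ} (hB : ∀ n, 0 ≤ B n) (hp : ∀ n, B (n + 3) = B n) (i : ℕ)
    (h : 1 - B i + B i * B (i + 2) ≤ 0) (hx : Sol 1 B x) : ¬ BddAbove (Set.range x) := by
  rintro ⟨M, hM⟩
  have px := pos hB hx
  have hM' : ∀ j, x j ≤ M := fun j => hM ⟨j, rfl⟩
  have M0 : 0 < M := (px 0).trans_le (hM' 0)
  have g0 := hB (i + 2)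
  have g1 := hB (i + 1)
  have β0 : 0 < B i := by nlinarith [mul_nonneg (hB i) g0]
  set μ : ℝ := 1 / (B (i + 1) * M + M) with hμ
  have μ0 : 0 < μ := by positivity
  set δ : ℝ := μ / (B i * M * (B i * M + μ)) with hδ
  have δ0 : 0 < δ := by positivity
  have st : ∀ m, 1 / x (3 * (m + 1) + i + 4) ≤ 1 / x (3 * m + i + 4) - δ := by
    intro m
    have ew := hx.2 (3 * m + (i + 1))
    have eb := hx.2 (3 * (m + 1) + i)
    have ec := hx.2 (3 * (m + 1) + (i + 1))
    have ea := hx.2 (3 * (m + 1) + (i + 2))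
    rw [perk hp] at ew eb ec ea
    rw [show 3 * m + (i + 1) + 1 + 1 = 3 * (m + 1) + i by ring] at ew
    rw [show 3 * (m + 1) + i + 1 = 3 * m + i + 4 by ring,
      show 3 * m + i + 4 + 1 = 3 * m + i + 5 by ring] at eb
    rw [show 3 * (m + 1) + (i + 1) = 3 * m + i + 4 by ring,
      show 3 * m + i + 4 + 1 = 3 * m + i + 5 by ring,
      show 3 * m + i + 5 + 1 = 3 * m + i + 6 by ring] at ec
    rw [show 3 * (m + 1) + (i + 2) + 1 + 1 = 3 * (m + 1) + i + 4 by ring,
      show 3 * (m + 1) + (i + 2) + 1 = 3 * m + i + 6 by ring,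
      show 3 * (m + 1) + (i + 2) = 3 * m + i + 5 by ring] at ea
    have hw : μ ≤ x (3 * (m + 1) + i) := by
      rw [ew]
      have q1 := px (3 * m + (i + 1) + 1)
      have q2 := px (3 * m + (i + 1))
      refine one_div_le_one_div_of_le (by positivity) ?_
      have := mul_le_mul_of_nonneg_left (hM' (3 * m + (i + 1) + 1)) g1
      have := hM' (3 * m + (i + 1))
      linarith
    have a0 := px (3 * m + i + 4)
    have aM := hM' (3 * m + i + 4)
    have b0 := px (3 * m + i + 5)
    generalize x (3 * m + i + 4) = a at *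
    have hc : x (3 * m + i + 6) ≤ 1 / a := by
      rw [ec]
      exact one_div_le_one_div_of_le a0 (by nlinarith [mul_nonneg g1 b0.le])
    have hb : x (3 * m + i + 5) ≤ 1 / (B i * a + μ) := by
      rw [eb]
      exact one_div_le_one_div_of_le (by positivity) (by linarith)
    have e1 : 1 / (B i * a + μ) = 1 / (B i * a) - μ / (B i * a * (B i * a + μ)) := by
      field_simp
      ring
    have e2 : δ ≤ μ / (B i * a * (B i * a + μ)) := by
      rw [hδ]
      gcongr
    have e3 : B (i + 2) * (1 / a) + 1 / (B i * a) ≤ 1 / a := by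
      have : 1 / a - (B (i + 2) * (1 / a) + 1 / (B i * a)) =
          -(1 - B i + B i * B (i + 2)) / (B i * a) := by
        field_simp
        ring
      have h2 : 0 ≤ -(1 - B i + B i * B (i + 2)) / (B i * a) :=
        div_nonneg (by linarith) (by positivity)
      linarith
    rw [ea, one_div_one_div]
    have := mul_le_mul_of_nonneg_left hc g0
    linarith
  have gr : ∀ m : ℕ, 1 / x (3 * m + i + 4) ≤ 1 / x (3 * 0 + i + 4) - m * δ := by
    intro m
    induction m with
    | zero => simp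
    | succ m ih =>
      have := st m
      push_cast
      linarith
  obtain ⟨j, hj⟩ := exists_nat_gt (1 / x (3 * 0 + i + 4) / δ)
  rw [div_lt_iff₀ δ0] at hj
  have := gr j
  have := one_div_pos.2 (px (3 * j + i + 4))
  linarith

theorem exsol1 {C : ℕ → ℝ} : ∃ x, Sol 1 C x := by
  let f : ℕ → ℝ × ℝ := fun n =>
    Nat.rec (1, 1) (fun k s => (s.2, 1 / (C k * s.2 + s.1))) n
  refine ⟨fun n => (f n).1, fun i hi => ?_, fun n => rfl⟩
  interval_cases i <;> exact one_pos

theorem cop {l : ℕ} {C x : ℕ → ℝ} (hB : ∀ n, 0 < C n) (k : ℕ) (h5 : Nat.Coprime (l + 2) k)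
    (hp : ∀ n, C (n + k) = C n) (hx : Sol l C x) : BddAbove (Set.range x) := by
  have hB' : ∀ n, 0 ≤ C n := fun n => (hB n).le
  have px := pos hB' hx
  have k0 : 0 < k := by
    rcases Nat.eq_zero_or_pos k with rfl | h
    · simp at h5
    · exact h
  have md : ∀ n, C n = C (n % k) := fun n => by
    conv_lhs => rw [← Nat.div_add_mod n k]
    exact perk hp _ _
  set D : ℝ := ∑ i ∈ Finset.range k, (C i + 1 / C i) with hD
  have hDn : ∀ n, C n + 1 / C n ≤ D := fun n => by
    rw [md n]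
    exact Finset.single_le_sum (f := fun i => C i + 1 / C i)
      (fun j _ => by have := hB j; positivity) (Finset.mem_range.2 (Nat.mod_lt _ k0))
  have D0 : 0 < D := lt_of_lt_of_le (by have := hB 0; positivity) (hDn 0)
  have e3 : ∀ n, x (n + l + 1) ≤ D * (1 / x (n + l)) := fun n => by
    have a := px (n + l)
    have c := hB n
    have : x (n + l + 1) ≤ 1 / C n * (1 / x (n + l)) := by
      rw [hx.2, one_div_mul_one_div]
      exact one_div_le_one_div_of_le (by positivity) (by linarith [px n])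
    refine this.trans (mul_le_mul_of_nonneg_right ?_ (by positivity))
    linarith [hDn n]
  have s5 : ∀ n, x (n + l) ≤ 2 * D * x (n + l + (l + 2)) := fun n => by
    have a := px (n + l)
    have e4 : x (n + l + l + 1) ≤ 1 / x (n + l) := by
      rw [hx.2]
      exact one_div_le_one_div_of_le a (by nlinarith [mul_pos (hB (n + l)) (px (n + l + l))])
    have c3 := hB (n + l + 1)
    have c3' : C (n + l + 1) ≤ D := by
      have : 0 < 1 / C (n + l + 1) := by positivity
      linarith [hDn (n + l + 1)]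
    have p3 := px (n + l + 1)
    have p4 := px (n + l + l + 1)
    have e : C (n + l + 1) * x (n + l + l + 1) + x (n + l + 1) ≤ 2 * D * (1 / x (n + l)) := by
      have := mul_le_mul c3' e4 p4.le D0.le
      linarith [e3 n]
    rw [show n + l + (l + 2) = n + l + 1 + l + 1 by ring, hx.2,
      show n + l + 1 + l = n + l + l + 1 by ring, mul_one_div, le_div_iff₀ (by positivity)]
    have := mul_le_mul_of_nonneg_left e a.le
    have e' : x (n + l) * (2 * D * (1 / x (n + l))) = 2 * D := by field_simp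
    linarith
  have sa : ∀ a n : ℕ, x (n + l) ≤ (2 * D) ^ a * x (n + l + (l + 2) * a) := by
    intro a n
    induction a with
    | zero => simp
    | succ a ih =>
      have := mul_le_mul_of_nonneg_left (s5 (n + (l + 2) * a))
        (show 0 ≤ (2 * D) ^ a by positivity)
      rw [show n + (l + 2) * a + l = n + l + (l + 2) * a by ring,
        show n + l + (l + 2) * a + (l + 2) = n + l + (l + 2) * (a + 1) by ring] at this
      rw [pow_succ]
      linarith
  have hy : Sol l C (fun i => x (i + k)) := by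
    refine ⟨fun i _ => px _, fun n => ?_⟩
    have := hx.2 (n + k)
    rw [hp] at this
    show x (n + l + 1 + k) = 1 / (C n * x (n + l + k) + x (n + k))
    rw [show n + l + 1 + k = n + k + l + 1 by ring, show n + l + k = n + k + l by ring]
    exact this
  obtain ⟨K, K0, hK⟩ := comp hB' hx hy
  have sb : ∀ b n : ℕ, x (n + k * b) ≤ K ^ b * x n := by
    intro b n
    induction b with
    | zero => simp
    | succ b ih =>
      have h1 : x (n + k * b + k) ≤ K * x (n + k * b) := (hK (n + k * b)).1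
      have := mul_le_mul_of_nonneg_left ih K0.le
      rw [show n + k * (b + 1) = n + k * b + k by ring, pow_succ]
      linarith
  obtain ⟨a, b, hab⟩ : ∃ a b : ℕ, (l + 2) * a = 1 + k * b := by
    have h1 := Nat.ModEq.pow_totient h5
    have h2 : 1 ≤ (l + 2) ^ Nat.totient k := Nat.one_le_pow _ _ (by omega)
    obtain ⟨b, hb⟩ := (Nat.modEq_iff_dvd' h2).1 h1.symm
    obtain ⟨t, ht⟩ : ∃ t, Nat.totient k = t + 1 :=
      ⟨Nat.totient k - 1, by have := Nat.totient_pos.2 k0; omega⟩
    refine ⟨(l + 2) ^ t, b, ?_⟩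
    rw [← pow_succ', ← ht]
    omega
  set W : ℝ := (2 * D) ^ a * K ^ b with hW
  have W0 : 0 < W := by positivity
  have fin : ∀ n, x (n + l) ≤ W * D + 1 := fun n => by
    have a0 := px (n + l)
    have h1 := sa a n
    rw [hab, show n + l + (1 + k * b) = n + l + 1 + k * b by ring] at h1
    have h2 := mul_le_mul_of_nonneg_left (sb b (n + l + 1)) (show 0 ≤ (2 * D) ^ a by positivity)
    have h3 : x (n + l) ≤ W * D * (1 / x (n + l)) := by
      have := mul_le_mul_of_nonneg_left (e3 n) W0.le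
      rw [← mul_assoc, ← hW] at h2
      linarith
    rw [mul_one_div, le_div_iff₀ a0] at h3
    nlinarith [mul_pos W0 D0]
  refine ⟨∑ i ∈ Finset.range l, x i + (W * D + 1), ?_⟩
  rintro _ ⟨i, rfl⟩
  have s0 : 0 ≤ ∑ i ∈ Finset.range l, x i := Finset.sum_nonneg fun j _ => (px j).le
  by_cases hi : i < l
  · have := Finset.single_le_sum (f := x) (fun j _ => (px j).le) (Finset.mem_range.2 hi)
    linarith [mul_pos W0 D0]
  · obtain ⟨n, rfl⟩ : ∃ n, i = n + l := ⟨i - l, by omega⟩
    linarith [fin n]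

theorem result (l : ℕ) (hl : 1 ≤ l) (B : ℕ → ℝ) (hB : ∀ n, 0 ≤ B n) :
    ((∀ n, B (n + 2) = B n) → B 0 ≠ B 1 →
      ((∀ x, Sol l B x → BddAbove (Set.range x)) ↔ Odd l)) ∧
    (l = 1 → (∀ n, B (n + 3) = B n) →
      ((∀ x, Sol l B x → BddAbove (Set.range x)) ↔ ∀ i, 0 < 1 - B i + B i * B (i + 2))) ∧
    (∀ k, Nat.Coprime (l + 2) k → (∀ n, B (n + k) = B n) → (∀ n, 0 < B n) →
      ∀ x, Sol l B x → BddAbove (Set.range x)) ∧
    (∀ k, k ∣ l + 1 → (∀ n, B (n + k) = B n) → ∀ x, Sol l B x → BddAbove (Set.range x)) ∧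
    ((∀ x, Sol l B x → BddAbove (Set.range x)) ∨ (∀ x, Sol l B x → ¬ BddAbove (Set.range x))) ∧
    ((∀ n, B (n + 2 * (l + 1)) = B n) → 0 < B 0 → B l = 0 → B (l + 1) = 0 → B (2 * l + 1) = 0 →
      ∀ x, Sol l B x → ¬ BddAbove (Set.range x)) := by
  refine ⟨fun hp hne => ⟨fun h => ?_, ?_⟩, ?_,
    fun k h5 hp h0 x hx => cop h0 k h5 hp hx, ?_, part1 l hl B hB⟩
  · by_contra ho
    obtain ⟨q, hq⟩ := Nat.not_odd_iff_even.1 ho
    obtain ⟨p, rfl⟩ : ∃ p, l = 2 * (p + 1) := ⟨q - 1, by omega⟩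
    obtain ⟨x, hx, hb⟩ := evenc p hB hp hne
    exact hb (h x hx)
  · rintro ⟨p, rfl⟩
    obtain ⟨x, hx, hb⟩ := oddc p hB hp
    rcases (part1 _ hl B hB).1 with h | h
    · exact h
    · exact absurd hb (h x hx)
  · rintro rfl hp
    constructor
    · intro h i
      by_contra hn
      obtain ⟨x, hx⟩ := exsol1 (C := B)
      exact t3u hB hp i (not_lt.1 hn) hx (h x hx)
    · intro h
      obtain ⟨x, hx, hb⟩ := t3b hB hp h
      rcases (part1 _ hl B hB).1 with h | h
      · exact h
      · exact absurd hb (h x hx)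
  · rintro k ⟨c, hc⟩ hp
    have per : ∀ m n, B (n + k * m) = B n := by
      intro m n
      induction m with
      | zero => simp
      | succ m ih => rw [show n + k * (m + 1) = n + k * m + k by ring, hp, ih]
    obtain ⟨x, hx, hb⟩ := divc l hB (fun n => by rw [hc, per])
    rcases (part1 _ hl B hB).1 with h | h
    · exact h
    · exact absurd hb (h x hx)

end Pool.Agent.Results.MP_975ca8_an.Dich
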